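import Pool.Agent.Work.MP_898423_gt.H45.Defs

set_option autoImplicit false

/-!
# Adding a new top; amalgamation of two points
-/

namespace Pool.Agent.W898423

open Set Topology Filter

variable {I : Type} [LinearOrder I] {ρ : I → I → ℕ → Bool} {μ : I → I → ℕ}

/-- Put a new top `δ` above a finite closed system `S`. -/
lemma exists_new_top (δ : I) (S : Finset I) (dn : I → Finset I) (k l : I → ℕ)
    (R : I → ℕ → ℕ → Bool) (hδ : ∀ e ∈ S, e < δ)
    (dn_lt : ∀ e e', e' ∈ dn e → e' < e)
    (dn_S : ∀ e, dn e ⊆ S)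
    (dn_trans : ∀ e e', e' ∈ dn e → dn e' ⊆ dn e)
    (real : ∀ e e', e' ∈ dn e → ∃ i < k e, R e i = ρ e e')
    (kl : ∀ e ∈ S, k e < l e)
    (lk : ∀ e e', e' ∈ dn e → l e' ≤ k e)
    (inc : ∀ e' ∈ S, ∀ e ∈ S, e' < e → e' ∉ dn e → l e' < μ e' e ∧ l e < μ e' e)
    (out_dn : ∀ e, e ∉ S → dn e = ∅)
    (out_k : ∀ e, e ∉ S → k e = 0)
    (out_l : ∀ e, e ∉ S → l e = 0)
    (out_R : ∀ e i, k e ≤ i → R e i = fun _ => false) :
    ∃ w : Pt ρ μ, w.top = δ ∧ w.dn δ = S ∧
      ∀ e ∈ S, w.dn e = dn e ∧ w.k e = k e ∧ w.l e = l e ∧ w.R e = R e := by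
  classical
  have hδS : δ ∉ S := fun h => lt_irrefl _ (hδ δ h)
  have hne : ∀ e ∈ S, e ≠ δ := fun e he => (hδ e he).ne
  let f : ℕ → ℕ → Bool := fun i =>
    if h : i < S.card then ρ δ ((S.equivFin.symm ⟨i, h⟩ : S) : I) else fun _ => false
  have hf : ∀ e ∈ S, ∃ i < S.card, f i = ρ δ e := by
    intro e he
    refine ⟨S.equivFin ⟨e, he⟩, (S.equivFin ⟨e, he⟩).2, ?_⟩
    simp [f]
  let w : Pt ρ μ :=
    { top := δ
      dn := Function.update dn δ S
      k := Function.update k δ (S.card + S.sup l)
      l := l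
      R := Function.update R δ f
      dn_lt := by
        intro e e' h
        by_cases he : e = δ
        · subst he
          rw [Function.update_self] at h
          exact hδ _ h
        · rw [Function.update_of_ne he] at h
          exact dn_lt _ _ h
      dn_trans := by
        intro e e' h
        by_cases he : e = δ
        · subst he
          rw [Function.update_self] at h ⊢
          rw [Function.update_of_ne (hne _ h)]
          exact dn_S _
        · rw [Function.update_of_ne he] at h ⊢
          rw [Function.update_of_ne (hne _ (dn_S _ h))]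
          exact dn_trans _ _ h
      real := by
        intro e e' h
        by_cases he : e = δ
        · subst he
          rw [Function.update_self] at h ⊢
          rw [Function.update_self]
          obtain ⟨i, hi, h2⟩ := hf _ h
          exact ⟨i, by omega, h2⟩
        · rw [Function.update_of_ne he] at h ⊢
          rw [Function.update_of_ne he]
          exact real _ _ h
      kl := by
        intro e he
        rw [Function.update_self] at he
        rw [Function.update_of_ne (hne _ he)]
        exact kl _ he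
      lk := by
        intro e e' h
        by_cases he : e = δ
        · subst he
          rw [Function.update_self] at h ⊢
          have := Finset.le_sup (f := l) h
          omega
        · rw [Function.update_of_ne he] at h ⊢
          exact lk _ _ h
      inc := by
        intro e' he' e he hlt hn
        rw [Function.update_self] at he he'
        rw [Function.update_of_ne (hne _ he)] at hn
        exact inc _ he' _ he hlt hn
      out_dn := by
        intro e h1 h2
        rw [Function.update_self] at h2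
        rw [Function.update_of_ne h1]
        exact out_dn _ h2
      out_k := by
        intro e h1 h2
        rw [Function.update_self] at h2
        rw [Function.update_of_ne h1]
        exact out_k _ h2
      out_l := by
        intro e h2
        rw [Function.update_self] at h2
        exact out_l _ h2
      out_R := by
        intro e i hi
        by_cases he : e = δ
        · subst he
          rw [Function.update_self] at hi ⊢
          have : ¬ i < S.card := by omega
          simp [f, this]
        · rw [Function.update_of_ne he] at hi ⊢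
          exact out_R _ _ hi }
  refine ⟨w, rfl, Function.update_self _ _ _, fun e he => ⟨?_, ?_, rfl, ?_⟩⟩
  · exact Function.update_of_ne (hne _ he) _ _
  · exact Function.update_of_ne (hne _ he) _ _
  · exact Function.update_of_ne (hne _ he) _ _

/-- A criterion for a point whose data extend those of `p` to lie in `b_n(p)`. -/
lemma mem_bs_of_data {n : ℕ} {p w : Pt ρ μ} (h1 : p.top ∈ w.dn w.top) (h2 : n ≤ w.l p.top)
    (h3 : ∀ e ∈ p.s, w.dn e = p.dn e ∧ w.k e = p.k e ∧ w.R e = p.R e)
    (h4 : ∀ e ∈ p.dn p.top, w.l e = p.l e) : w ∈ bs n p := by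
  refine ⟨Or.inr ⟨h1, h2⟩, fun e he => ⟨(h3 e he).2.1, ?_, ?_⟩, h4⟩
  · intro i _ m _
    rw [(h3 e he).2.2]
  · intro e' _ _
    rw [(h3 e he).1]

/-- Every basic neighbourhood of `p` meets the level `δ` for `δ > top p`. -/
theorem exists_mem_level (p : Pt ρ μ) (n : ℕ) (δ : I) (hδ : p.top < δ) :
    ∃ w ∈ bs n p, w.top = δ := by
  classical
  set L := max n (p.k p.top + 1) with hL
  have hlt : ∀ e ∈ p.dn p.top, e ≠ p.top := fun e he => (p.dn_lt _ _ he).ne
  obtain ⟨w, hw1, hw2, hw3⟩ := exists_new_top (μ := μ) (ρ := ρ) δ p.s p.dn p.k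
    (Function.update p.l p.top L) p.R
    (fun e he => (Pt.le_top he).trans_lt hδ) p.dn_lt
    (by
      intro e
      by_cases he : e ∈ p.s
      · exact Pt.dn_sub_s he
      · rw [Pt.mem_s, not_or] at he
        rw [p.out_dn e he.1 he.2]
        simp)
    p.dn_trans p.real
    (by
      intro e he
      rcases Pt.mem_s.1 he with h | h
      · rw [h, Function.update_self]; omega
      · rw [Function.update_of_ne (hlt e h)]
        exact p.kl e h)
    (by
      intro e e' h
      have he' : e' ≠ p.top := by
        intro h'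
        by_cases he : e ∈ p.s
        · have h1 := p.dn_lt _ _ h
          have h2 := Pt.le_top he
          rw [h'] at h1
          exact absurd h1 (not_lt.2 h2)
        · rw [Pt.mem_s, not_or] at he
          rw [p.out_dn e he.1 he.2] at h
          simp at h
      rw [Function.update_of_ne he']
      exact p.lk _ _ h)
    (by
      intro e' he' e he hlt' hn
      have h1 : e ∈ p.dn p.top := by
        rcases Pt.mem_s.1 he with h | h
        · rcases Pt.mem_s.1 he' with h' | h'
          · rw [h, h'] at hlt'; exact absurd hlt' (lt_irrefl _)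
          · rw [h] at hn; exact absurd h' hn
        · exact h
      have h2 : e' ∈ p.dn p.top := by
        rcases Pt.mem_s.1 he' with h | h
        · rw [h] at hlt'
          exact absurd hlt' (not_lt.2 (Pt.le_top he))
        · exact h
      rw [Function.update_of_ne (hlt e h1), Function.update_of_ne (hlt e' h2)]
      exact p.inc _ h2 _ h1 hlt' hn)
    (by
      intro e he
      rw [Pt.mem_s, not_or] at he
      exact p.out_dn e he.1 he.2)
    (by
      intro e he
      rw [Pt.mem_s, not_or] at he
      exact p.out_k e he.1 he.2)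
    (by
      intro e he
      rw [Pt.mem_s, not_or] at he
      rw [Function.update_of_ne he.1]
      exact p.out_l e he.2)
    p.out_R
  refine ⟨w, mem_bs_of_data ?_ ?_ (fun e he => ⟨(hw3 e he).1, (hw3 e he).2.1, (hw3 e he).2.2.2⟩)
    ?_, hw1⟩
  · rw [hw1, hw2]; exact p.top_mem_s
  · rw [(hw3 _ p.top_mem_s).2.2.1, Function.update_self]
    exact le_max_left _ _
  · intro e he
    rw [(hw3 _ (Pt.dn_top_sub_s he)).2.2.1, Function.update_of_ne (hlt e he)]

/-- Amalgamation. -/
theorem exists_amalgam (p p' : Pt ρ μ) (n : ℕ) (δ : I) (hδ : p.top < δ) (hδ' : p'.top < δ)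
    (hag : ∀ e ∈ p.s, e ∈ p'.s →
      p.dn e = p'.dn e ∧ p.k e = p'.k e ∧ p.l e = p'.l e ∧ p.R e = p'.R e)
    (ht : p.top ∉ p'.s) (ht' : p'.top ∉ p.s)
    (hμ : ∀ e ∈ p.s, e ∉ p'.s → ∀ e' ∈ p'.s, e' ∉ p.s → e < e' ∧ n < μ e e')
    (hn : p.k p.top < n) (hn' : p'.k p'.top < n) : (bs n p ∩ bs n p').Nonempty := by
  classical
  have outp : ∀ e, e ∉ p.s → p.dn e = ∅ ∧ p.k e = 0 ∧ p.l e = 0 := by
    intro e he
    rw [Pt.mem_s, not_or] at he
    exact ⟨p.out_dn e he.1 he.2, p.out_k e he.1 he.2, p.out_l e he.2⟩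
  have outp' : ∀ e, e ∉ p'.s → p'.dn e = ∅ ∧ p'.k e = 0 ∧ p'.l e = 0 := by
    intro e he
    rw [Pt.mem_s, not_or] at he
    exact ⟨p'.out_dn e he.1 he.2, p'.out_k e he.1 he.2, p'.out_l e he.2⟩
  set dn : I → Finset I := fun e => if e ∈ p.s then p.dn e else p'.dn e with hdn
  set k : I → ℕ := fun e => if e ∈ p.s then p.k e else p'.k e with hk
  set R : I → ℕ → ℕ → Bool := fun e => if e ∈ p.s then p.R e else p'.R e with hR
  set l : I → ℕ := fun e => if e = p.top ∨ e = p'.top then n else
    if e ∈ p.s then p.l e else p'.l e with hl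
  have dn1 : ∀ e ∈ p.s, dn e = p.dn e := fun e he => if_pos he
  have k1 : ∀ e ∈ p.s, k e = p.k e := fun e he => if_pos he
  have R1 : ∀ e ∈ p.s, R e = p.R e := fun e he => if_pos he
  have dn2 : ∀ e ∈ p'.s, dn e = p'.dn e := by
    intro e he
    by_cases h : e ∈ p.s
    · rw [dn1 e h, (hag e h he).1]
    · exact if_neg h
  have k2 : ∀ e ∈ p'.s, k e = p'.k e := by
    intro e he
    by_cases h : e ∈ p.s
    · rw [k1 e h, (hag e h he).2.1]
    · exact if_neg h
  have R2 : ∀ e ∈ p'.s, R e = p'.R e := by
    intro e he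
    by_cases h : e ∈ p.s
    · rw [R1 e h, (hag e h he).2.2.2]
    · exact if_neg h
  have lt1 : l p.top = n := if_pos (Or.inl rfl)
  have lt2 : l p'.top = n := if_pos (Or.inr rfl)
  have l1 : ∀ e ∈ p.dn p.top, l e = p.l e := by
    intro e he
    have h1 : ¬ (e = p.top ∨ e = p'.top) := by
      rintro (h | h)
      · exact (p.dn_lt _ _ he).ne h
      · exact ht' (h ▸ Pt.dn_top_sub_s he)
    rw [hl]
    simp only
    rw [if_neg h1, if_pos (Pt.dn_top_sub_s he)]
  have l2 : ∀ e ∈ p'.dn p'.top, l e = p'.l e := by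
    intro e he
    have h1 : ¬ (e = p.top ∨ e = p'.top) := by
      rintro (h | h)
      · exact ht (h ▸ Pt.dn_top_sub_s he)
      · exact (p'.dn_lt _ _ he).ne h
    rw [hl]
    simp only
    rw [if_neg h1]
    by_cases h : e ∈ p.s
    · rw [if_pos h, (hag e h (Pt.dn_top_sub_s he)).2.2.1]
    · exact if_neg h
  have kn : ∀ e ∈ p.dn p.top, p.l e < n := fun e he => (p.lk _ _ he).trans_lt hn
  have kn' : ∀ e ∈ p'.dn p'.top, p'.l e < n := fun e he => (p'.lk _ _ he).trans_lt hn'
  have ln1 : ∀ e ∈ p.s, l e ≤ n := by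
    intro e he
    rcases Pt.mem_s.1 he with h | h
    · rw [h, lt1]
    · rw [l1 e h]; exact (kn e h).le
  have ln2 : ∀ e ∈ p'.s, l e ≤ n := by
    intro e he
    rcases Pt.mem_s.1 he with h | h
    · rw [h, lt2]
    · rw [l2 e h]; exact (kn' e h).le
  have key : ∀ e e', e' ∈ dn e → (e ∈ p.s ∧ e' ∈ p.dn e) ∨ (e ∈ p'.s ∧ e' ∈ p'.dn e) := by
    intro e e' h
    by_cases he : e ∈ p.s
    · rw [dn1 e he] at h; exact Or.inl ⟨he, h⟩
    · have h2 : dn e = p'.dn e := if_neg he
      rw [h2] at h
      by_cases he' : e ∈ p'.s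
      · exact Or.inr ⟨he', h⟩
      · rw [(outp' e he').1] at h
        simp at h
  obtain ⟨w, hw1, hw2, hw3⟩ := exists_new_top (μ := μ) (ρ := ρ) δ (p.s ∪ p'.s) dn k l R
    (by
      intro e he
      rcases Finset.mem_union.1 he with h | h
      · exact (Pt.le_top h).trans_lt hδ
      · exact (Pt.le_top h).trans_lt hδ')
    (by
      intro e e' h
      rcases key e e' h with ⟨_, h2⟩ | ⟨_, h2⟩
      · exact p.dn_lt _ _ h2
      · exact p'.dn_lt _ _ h2)
    (by
      intro e e' h
      rcases key e e' h with ⟨h1, h2⟩ | ⟨h1, h2⟩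
      · exact Finset.mem_union_left _ (Pt.dn_sub_s h1 h2)
      · exact Finset.mem_union_right _ (Pt.dn_sub_s h1 h2))
    (by
      intro e e' h
      rcases key e e' h with ⟨h1, h2⟩ | ⟨h1, h2⟩
      · rw [dn1 e h1, dn1 e' (Pt.dn_sub_s h1 h2)]
        exact p.dn_trans _ _ h2
      · rw [dn2 e h1, dn2 e' (Pt.dn_sub_s h1 h2)]
        exact p'.dn_trans _ _ h2)
    (by
      intro e e' h
      rcases key e e' h with ⟨h1, h2⟩ | ⟨h1, h2⟩
      · rw [k1 e h1, R1 e h1]
        exact p.real _ _ h2
      · rw [k2 e h1, R2 e h1]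
        exact p'.real _ _ h2)
    (by
      intro e he
      rcases Finset.mem_union.1 he with h | h
      · rw [k1 e h]
        rcases Pt.mem_s.1 h with h' | h'
        · rw [h', lt1]; exact hn
        · rw [l1 e h']; exact p.kl e h'
      · rw [k2 e h]
        rcases Pt.mem_s.1 h with h' | h'
        · rw [h', lt2]; exact hn'
        · rw [l2 e h']; exact p'.kl e h')
    (by
      intro e e' h
      rcases key e e' h with ⟨h1, h2⟩ | ⟨h1, h2⟩
      · rw [k1 e h1, l1 e' (Pt.dn_sub_dn_top h1 h2)]
        exact p.lk _ _ h2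
      · rw [k2 e h1, l2 e' (Pt.dn_sub_dn_top h1 h2)]
        exact p'.lk _ _ h2)
    (by
      intro e' he' e he hlt' hn''
      have both1 : e ∈ p.s → e' ∈ p.s → l e' < μ e' e ∧ l e < μ e' e := by
        intro he he'
        rw [dn1 e he] at hn''
        have h1 : e ∈ p.dn p.top := by
          rcases Pt.mem_s.1 he with h | h
          · rcases Pt.mem_s.1 he' with h' | h'
            · rw [h, h'] at hlt'; exact absurd hlt' (lt_irrefl _)
            · rw [h] at hn''; exact absurd h' hn''
          · exact h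
        have h2 : e' ∈ p.dn p.top := by
          rcases Pt.mem_s.1 he' with h | h
          · rw [h] at hlt'
            exact absurd hlt' (not_lt.2 (Pt.le_top he))
          · exact h
        rw [l1 e h1, l1 e' h2]
        exact p.inc _ h2 _ h1 hlt' hn''
      have both2 : e ∈ p'.s → e' ∈ p'.s → l e' < μ e' e ∧ l e < μ e' e := by
        intro he he'
        rw [dn2 e he] at hn''
        have h1 : e ∈ p'.dn p'.top := by
          rcases Pt.mem_s.1 he with h | h
          · rcases Pt.mem_s.1 he' with h' | h'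
            · rw [h, h'] at hlt'; exact absurd hlt' (lt_irrefl _)
            · rw [h] at hn''; exact absurd h' hn''
          · exact h
        have h2 : e' ∈ p'.dn p'.top := by
          rcases Pt.mem_s.1 he' with h | h
          · rw [h] at hlt'
            exact absurd hlt' (not_lt.2 (Pt.le_top he))
          · exact h
        rw [l2 e h1, l2 e' h2]
        exact p'.inc _ h2 _ h1 hlt' hn''
      by_cases a1 : e ∈ p.s
      · by_cases a2 : e' ∈ p.s
        · exact both1 a1 a2
        · have a3 : e' ∈ p'.s := (Finset.mem_union.1 he').resolve_left a2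
          by_cases a4 : e ∈ p'.s
          · exact both2 a4 a3
          · exact absurd (hμ e a1 a4 e' a3 a2).1 (not_lt.2 hlt'.le)
      · have a3 : e ∈ p'.s := (Finset.mem_union.1 he).resolve_left a1
        by_cases a4 : e' ∈ p'.s
        · exact both2 a3 a4
        · have a2 : e' ∈ p.s := (Finset.mem_union.1 he').resolve_right a4
          have h5 := (hμ e' a2 a4 e a3 a1).2
          have h6 := ln1 e' a2
          have h7 := ln2 e a3
          omega)
    (by
      intro e he
      rw [Finset.mem_union, not_or] at he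
      have h2 : dn e = p'.dn e := if_neg he.1
      rw [h2, (outp' e he.2).1])
    (by
      intro e he
      rw [Finset.mem_union, not_or] at he
      have h2 : k e = p'.k e := if_neg he.1
      rw [h2, (outp' e he.2).2.1])
    (by
      intro e he
      rw [Finset.mem_union, not_or] at he
      have h1 : ¬ (e = p.top ∨ e = p'.top) := by
        rintro (h | h)
        · exact he.1 (h ▸ p.top_mem_s)
        · exact he.2 (h ▸ p'.top_mem_s)
      rw [hl]
      simp only
      rw [if_neg h1, if_neg he.1, (outp' e he.2).2.2])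
    (by
      intro e i hi
      by_cases h : e ∈ p.s
      · rw [k1 e h] at hi
        rw [R1 e h]
        exact p.out_R _ _ hi
      · have h2 : k e = p'.k e := if_neg h
        have h3 : R e = p'.R e := if_neg h
        rw [h2] at hi
        rw [h3]
        exact p'.out_R _ _ hi)
  have s1 : ∀ e ∈ p.s, e ∈ p.s ∪ p'.s := fun e he => Finset.mem_union_left _ he
  have s2 : ∀ e ∈ p'.s, e ∈ p.s ∪ p'.s := fun e he => Finset.mem_union_right _ he
  refine ⟨w, mem_bs_of_data ?_ ?_ ?_ ?_, mem_bs_of_data ?_ ?_ ?_ ?_⟩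
  · rw [hw1, hw2]; exact s1 _ p.top_mem_s
  · rw [(hw3 _ (s1 _ p.top_mem_s)).2.2.1, lt1]
  · intro e he
    rw [(hw3 _ (s1 _ he)).1, (hw3 _ (s1 _ he)).2.1, (hw3 _ (s1 _ he)).2.2.2, dn1 e he, k1 e he,
      R1 e he]
    exact ⟨rfl, rfl, rfl⟩
  · intro e he
    rw [(hw3 _ (s1 _ (Pt.dn_top_sub_s he))).2.2.1, l1 e he]
  · rw [hw1, hw2]; exact s2 _ p'.top_mem_s
  · rw [(hw3 _ (s2 _ p'.top_mem_s)).2.2.1, lt2]
  · intro e he
    rw [(hw3 _ (s2 _ he)).1, (hw3 _ (s2 _ he)).2.1, (hw3 _ (s2 _ he)).2.2.2, dn2 e he, k2 e he,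
      R2 e he]
    exact ⟨rfl, rfl, rfl⟩
  · intro e he
    rw [(hw3 _ (s2 _ (Pt.dn_top_sub_s he))).2.2.1, l2 e he]

end Pool.Agent.W898423
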