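import Pool.Agent.Work.MP_898423_gt.H45.Compact
import Pool.Agent.Work.MP_898423_gt.H45.Amalg
import Pool.Agent.Work.MP_898423_gt.Walk

set_option autoImplicit false

/-!
# Cellular families are caught by one level
-/

namespace Pool.Agent.W898423

open Set Cardinal

/-- Pigeonhole on the well-order of type `𝔠⁺`. -/
lemma pigeon {ι : Type} (hι : #ι ≤ 𝔠) (P : ι → II → Prop)
    (hmono : ∀ i g g', g ≤ g' → P i g' → P i g) (h : ∀ g, ∃ i, P i g) : ∃ i, ∀ g, P i g := by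
  by_contra hc
  push Not at hc
  choose f hf using hc
  obtain ⟨b, hb⟩ := bdd_of_small (range f) (mk_range_le.trans hι)
  obtain ⟨i, hi⟩ := h b
  exact hf i (hmono i _ _ (hb _ ⟨i, rfl⟩).le hi)

lemma mk_finset_le (α : Type) (h : #α ≤ 𝔠) : #(Finset α) ≤ 𝔠 := by
  have h1 : #(Finset α) ≤ #(List α) :=
    mk_le_of_injective (f := Finset.toList) fun a b hab => by
      rw [← Finset.val_inj, ← Finset.coe_toList, ← Finset.coe_toList, hab]
  exact h1.trans ((mk_list_le_max α).trans (max_le aleph0_le_continuum h))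

/-- The code of the part of `p` at or below `γ`. -/
noncomputable def enc {ρ : II → II → ℕ → Bool} {μ : II → II → ℕ} (γ : II) (p : Pt ρ μ) :
    Finset ({x : II // x ≤ γ} × Finset {x : II // x ≤ γ} × ℕ × ℕ × (ℕ → ℕ → Bool)) := by
  classical
  exact (Finset.subtype (· ≤ γ) p.s).image
    (fun e => (e, Finset.subtype (· ≤ γ) (p.dn e), p.k e, p.l e, p.R e))

lemma mk_enc (γ : II) :
    #(Finset ({x : II // x ≤ γ} × Finset {x : II // x ≤ γ} × ℕ × ℕ × (ℕ → ℕ → Bool))) ≤ 𝔠 := by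
  apply mk_finset_le
  have h1 : #{x : II // x ≤ γ} ≤ 𝔠 := mk_Iic_II γ
  have h2 := mk_finset_le _ h1
  have h3 : #(ℕ → ℕ → Bool) ≤ 𝔠 := by
    simp
  have hmul : ∀ a b : Cardinal.{0}, a ≤ 𝔠 → b ≤ 𝔠 → a * b ≤ 𝔠 := fun a b ha hb =>
    (mul_le_mul' ha hb).trans (mul_eq_self aleph0_le_continuum).le
  simp only [mk_prod, Cardinal.lift_id]
  refine hmul _ _ h1 (hmul _ _ h2 (hmul _ _ ?_ (hmul _ _ ?_ h3)))
  · rw [mk_nat]; exact aleph0_le_continuum
  · rw [mk_nat]; exact aleph0_le_continuum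

section

variable {ρ : II → II → ℕ → Bool} {μ : II → II → ℕ}

lemma enc_spec {γ : II} {p p' : Pt ρ μ} (h : enc γ p = enc γ p') {e : II} (he : e ≤ γ)
    (hep : e ∈ p.s) :
    e ∈ p'.s ∧ p.dn e = p'.dn e ∧ p.k e = p'.k e ∧ p.l e = p'.l e ∧ p.R e = p'.R e := by
  classical
  have h1 : ((⟨e, he⟩ : {x : II // x ≤ γ}), Finset.subtype (· ≤ γ) (p.dn e), p.k e, p.l e, p.R e) ∈
      enc γ p := by
    unfold enc
    exact Finset.mem_image.2 ⟨⟨e, he⟩, Finset.mem_subtype.2 hep, rfl⟩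
  rw [h] at h1
  unfold enc at h1
  obtain ⟨e', he', heq⟩ := Finset.mem_image.1 h1
  simp only [Prod.mk.injEq] at heq
  obtain ⟨q1, q2, q3, q4, q5⟩ := heq
  subst q1
  simp only at q2 q3 q4 q5
  refine ⟨Finset.mem_subtype.1 he', ?_, q3.symm, q4.symm, q5.symm⟩
  ext x
  constructor
  · intro hx
    have hxγ : x ≤ γ := (p.dn_lt _ _ hx).le.trans he
    have : (⟨x, hxγ⟩ : {x : II // x ≤ γ}) ∈ Finset.subtype (· ≤ γ) (p.dn e) :=
      Finset.mem_subtype.2 hx
    rw [← q2] at this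
    exact Finset.mem_subtype.1 this
  · intro hx
    have hxγ : x ≤ γ := (p'.dn_lt _ _ hx).le.trans he
    have : (⟨x, hxγ⟩ : {x : II // x ≤ γ}) ∈ Finset.subtype (· ≤ γ) (p'.dn e) :=
      Finset.mem_subtype.2 hx
    rw [q2] at this
    exact Finset.mem_subtype.1 this

lemma exists_gt_II (g : II) : ∃ g', g < g' := by
  have h1 : #({g} : Set II) ≤ 𝔠 := by
    rw [mk_singleton]
    exact (one_le_aleph0).trans aleph0_le_continuum
  obtain ⟨b, hb⟩ := bdd_of_small {g} h1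
  exact ⟨b, hb g rfl⟩

/-- The gap lemma. -/
lemma exists_gap (P : Pt ρ μ → Prop) (m : ℕ) (hm : ∀ p, P p → p.s.card = m)
    (h : ∀ g, ∃ p, P p ∧ g ≤ p.top) :
    ∃ γ, ∀ g, γ ≤ g → ∃ p, P p ∧ (∀ e ∈ p.s, e ≤ g → e ≤ γ) ∧ ∃ e ∈ p.s, g < e := by
  by_contra hc
  push Not at hc
  choose f hf1 hf2 using hc
  obtain ⟨γ0, -⟩ : ∃ γ0 : II, True := by
    have : Nonempty II := by
      rw [← mk_ne_zero_iff, mk_II]
      exact (Order.bot_lt_succ 𝔠).ne'
    exact ⟨Classical.arbitrary II, trivial⟩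
  set s : ℕ → II := fun k => f^[k] γ0 with hs
  have hss : ∀ k, s (k + 1) = f (s k) := fun k => Function.iterate_succ_apply' f k γ0
  have hmono : Monotone s := monotone_nat_of_le_succ fun k => by rw [hss]; exact hf1 _
  obtain ⟨g', hg'⟩ := exists_gt_II (s (m + 1))
  obtain ⟨p, hp, hpt⟩ := h g'
  have hex : ∀ k : ℕ, k ≤ m → ∃ e ∈ p.s, e ≤ s (k + 1) ∧ s k < e := by
    intro k hk
    by_contra hcon
    push Not at hcon
    have h1 := hf2 (s k) p hp (by
      intro e he hle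
      rw [← hss] at hle
      exact hcon e he hle) p.top p.top_mem_s
    rw [← hss] at h1
    have h2 : s (k + 1) ≤ s (m + 1) := hmono (by omega)
    exact absurd (hg'.trans_le hpt) (not_lt.2 (h1.trans h2))
  have hex' : ∀ k : ℕ, ∃ e : II, k ≤ m → (e ∈ p.s ∧ e ≤ s (k + 1) ∧ s k < e) := by
    intro k
    by_cases hk : k ≤ m
    · obtain ⟨e, he⟩ := hex k hk
      exact ⟨e, fun _ => he⟩
    · exact ⟨γ0, fun h => absurd h hk⟩
  choose e he using hex'
  have he1 : ∀ k, k ≤ m → e k ∈ p.s := fun k hk => (he k hk).1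
  have he2 : ∀ k, k ≤ m → e k ≤ s (k + 1) := fun k hk => (he k hk).2.1
  have he3 : ∀ k, k ≤ m → s k < e k := fun k hk => (he k hk).2.2
  have hlt : ∀ i j, i ≤ m → j ≤ m → i < j → e i < e j := by
    intro i j hi hj hij
    exact ((he2 i hi).trans (hmono (by omega))).trans_lt (he3 j hj)
  have hcard : (Finset.range (m + 1)).card ≤ p.s.card := by
    refine Finset.card_le_card_of_injOn e ?_ ?_
    · intro i hi
      simp only [Finset.coe_range, Set.mem_Iio] at hi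
      exact he1 i (by omega)
    · intro i hi j hj hij
      simp only [Finset.coe_range, Set.mem_Iio] at hi hj
      rcases lt_trichotomy i j with h1 | h1 | h1
      · exact absurd hij (hlt i j (by omega) (by omega) h1).ne
      · exact h1
      · exact absurd hij (hlt j i (by omega) (by omega) h1).ne'
  rw [Finset.card_range, hm p hp] at hcard
  omega

/-- Every cellular family has members containing points of bounded tops. -/
theorem exists_bound
    (hμ : ∀ (n : ℕ) (A : Set (Finset II)),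
      (∀ g : II, ∃ a ∈ A, a.Nonempty ∧ ∀ x ∈ a, g < x) →
      ∃ a ∈ A, ∃ b ∈ A, a.Nonempty ∧ b.Nonempty ∧ ∀ x ∈ a, ∀ y ∈ b, x < y ∧ n < μ x y)
    (𝒰 : Set (Set (Pt ρ μ))) (hopen : ∀ U ∈ 𝒰, IsOpen U ∧ U.Nonempty)
    (hdisj : 𝒰.PairwiseDisjoint id) : ∃ δ : II, ∀ U ∈ 𝒰, ∃ p ∈ U, p.top < δ := by
  classical
  by_contra hc
  push Not at hc
  -- choose a point and a basic set in every member
  have hch : ∀ U : 𝒰, ∃ (p : Pt ρ μ) (n : ℕ), p ∈ (U : Set (Pt ρ μ)) ∧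
      bs n p ⊆ (U : Set (Pt ρ μ)) ∧ p.k p.top < n := by
    rintro ⟨U, hU⟩
    obtain ⟨p, hp⟩ := (hopen U hU).2
    obtain ⟨n, hn⟩ := (hopen U hU).1 p hp
    refine ⟨p, max n (p.k p.top + 1), hp, (bs_anti (le_max_left _ _) p).trans hn, by omega⟩
  choose pU nU hU1 hU2 hU3 using hch
  -- first pigeonhole
  obtain ⟨⟨n0, m0⟩, h0⟩ := pigeon (ι := ℕ × ℕ)
    (by simp only [mk_prod, mk_nat, Cardinal.lift_id]
        rw [aleph0_mul_aleph0]; exact aleph0_le_continuum)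
    (fun i g => ∃ U : 𝒰, nU U = i.1 ∧ (pU U).s.card = i.2 ∧ g ≤ (pU U).top)
    (by
      rintro i g g' hgg ⟨U, h1, h2, h3⟩
      exact ⟨U, h1, h2, hgg.trans h3⟩)
    (by
      intro g
      obtain ⟨U, hU, h1⟩ := hc g
      exact ⟨(nU ⟨U, hU⟩, (pU ⟨U, hU⟩).s.card), ⟨U, hU⟩, rfl, rfl, h1 _ (hU1 ⟨U, hU⟩)⟩)
  simp only at h0
  -- the gap
  obtain ⟨γ, hγ⟩ := exists_gap (fun p => ∃ U : 𝒰, nU U = n0 ∧ p = pU U ∧ p.s.card = m0) m0
    (by rintro p ⟨U, -, -, h⟩; exact h)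
    (by
      intro g
      obtain ⟨U, h1, h2, h3⟩ := h0 g
      exact ⟨pU U, ⟨U, h1, rfl, h2⟩, h3⟩)
  -- second pigeonhole
  obtain ⟨c, h4⟩ := pigeon (mk_enc γ)
    (fun c g => ∃ U : 𝒰, nU U = n0 ∧ enc γ (pU U) = c ∧ (∀ e ∈ (pU U).s, e ≤ g → e ≤ γ) ∧
      ∃ e ∈ (pU U).s, g < e)
    (by
      rintro i g g' hgg ⟨U, h1, h2, h3, e, h4, h5⟩
      exact ⟨U, h1, h2, fun e he hle => h3 e he (hle.trans hgg), e, h4, hgg.trans_lt h5⟩)
    (by
      intro g
      obtain ⟨p, ⟨U, h1, rfl, h3⟩, h4, e, h5, h6⟩ := hγ (max γ g) (le_max_left _ _)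
      exact ⟨enc γ (pU U), U, h1, rfl,
        fun e he hle => h4 e he (hle.trans (le_max_right _ _)), e, h5,
        (le_max_right _ _).trans_lt h6⟩)
  -- apply the colouring
  obtain ⟨a, ⟨U, hU, haU, rfl⟩, b, ⟨V, hV, hbV, rfl⟩, hane, hbne, hab⟩ := hμ n0
    {a | ∃ U : 𝒰, nU U = n0 ∧ enc γ (pU U) = c ∧ a = (pU U).s.filter (fun e => γ < e)}
    (by
      intro g
      obtain ⟨U, h1, h2, h3, e, h5, h6⟩ := h4 (max γ g)
      refine ⟨_, ⟨U, h1, h2, rfl⟩, ⟨e, Finset.mem_filter.2 ⟨h5, (le_max_left _ _).trans_lt h6⟩⟩, ?_⟩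
      intro x hx
      obtain ⟨hx1, hx2⟩ := Finset.mem_filter.1 hx
      by_contra hcon
      have : x ≤ max γ g := (not_lt.1 hcon).trans (le_max_right _ _)
      exact absurd hx2 (not_lt.2 (h3 x hx1 this)))
  have hmemf : ∀ {W : 𝒰} {e : II}, e ∈ (pU W).s.filter (fun e => γ < e) ↔ e ∈ (pU W).s ∧ γ < e :=
    Finset.mem_filter
  have htU : (pU U).top ∈ (pU U).s.filter (fun e => γ < e) := by
    obtain ⟨x, hx⟩ := hane
    rw [hmemf] at hx ⊢
    exact ⟨(pU U).top_mem_s, hx.2.trans_le (Pt.le_top hx.1)⟩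
  have htV : (pU V).top ∈ (pU V).s.filter (fun e => γ < e) := by
    obtain ⟨x, hx⟩ := hbne
    rw [hmemf] at hx ⊢
    exact ⟨(pU V).top_mem_s, hx.2.trans_le (Pt.le_top hx.1)⟩
  have hnot : ∀ e, γ < e → e ∈ (pU U).s → e ∈ (pU V).s → False := by
    intro e h1 h2 h3
    exact lt_irrefl _ (hab e (hmemf.2 ⟨h2, h1⟩) e (hmemf.2 ⟨h3, h1⟩)).1
  obtain ⟨δ, hδ⟩ := exists_gt_II (max (pU U).top (pU V).top)
  have henc : enc γ (pU U) = enc γ (pU V) := haU.trans hbV.symm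
  have hne := exists_amalgam (pU U) (pU V) n0 δ ((le_max_left _ _).trans_lt hδ)
    ((le_max_right _ _).trans_lt hδ)
    (by
      intro e h1 h2
      rcases lt_or_ge γ e with h3 | h3
      · exact (hnot e h3 h1 h2).elim
      · exact (enc_spec henc h3 h1).2)
    (fun h => hnot _ (hmemf.1 htU).2 (hmemf.1 htU).1 h)
    (fun h => hnot _ (hmemf.1 htV).2 h (hmemf.1 htV).1)
    (by
      intro e he1 he2 e' he1' he2'
      have h1 : γ < e := by
        by_contra hcon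
        exact he2 (enc_spec henc (not_lt.1 hcon) he1).1
      have h2 : γ < e' := by
        by_contra hcon
        exact he2' (enc_spec henc.symm (not_lt.1 hcon) he1').1
      exact hab e (hmemf.2 ⟨he1, h1⟩) e' (hmemf.2 ⟨he1', h2⟩))
    (by rw [← hU]; exact hU3 U) (by rw [← hV]; exact hU3 V)
  obtain ⟨w, hw1, hw2⟩ := hne
  rw [← hU] at hw1
  rw [← hV] at hw2
  have hUV : U = V := by
    by_contra hne
    have hne' : (U : Set (Pt ρ μ)) ≠ V := fun h => hne (Subtype.ext h)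
    have := hdisj U.2 V.2 hne'
    exact Set.disjoint_left.1 this (hU2 U hw1) (hU2 V hw2)
  rw [hUV] at htU
  exact lt_irrefl _ (hab _ (hUV ▸ htU) _ htV).1

end

end Pool.Agent.W898423
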