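import Pool.Agent.Work.MP_898423_gt.H45.Defs

set_option autoImplicit false

/-!
# The level sets are sigma-compact
-/

namespace Pool.Agent.W898423

open Set Topology Filter

variable {I : Type} [LinearOrder I] {ρ : I → I → ℕ → Bool} {μ : I → I → ℕ}

lemma card_dn_le (hρ : ∀ e, Set.InjOn (ρ e) (Set.Iio e)) (p : Pt ρ μ) (e : I) :
    (p.dn e).card ≤ p.k e := by
  classical
  have h : ∀ e' : {x // x ∈ p.dn e}, ∃ i : Fin (p.k e), p.R e i = ρ e e' := by
    rintro ⟨e', he'⟩
    obtain ⟨i, hi, h⟩ := p.real _ _ he'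
    exact ⟨⟨i, hi⟩, h⟩
  choose f hf using h
  have hinj : Function.Injective f := by
    intro a b hab
    have h1 := hf a
    rw [hab, hf b] at h1
    exact Subtype.ext (hρ e (p.dn_lt _ _ b.2) (p.dn_lt _ _ a.2) h1).symm
  have := Fintype.card_le_of_injective f hinj
  simpa using this

lemma exists_eventually_eq_nat {X : Type*} (𝒰 : Ultrafilter X) {f : X → ℕ} {B : ℕ}
    (h : ∀ᶠ p in (𝒰 : Filter X), f p ≤ B) : ∃ c, ∀ᶠ p in (𝒰 : Filter X), f p = c := by
  by_contra hc
  push Not at hc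
  have h2 : ∀ c ∈ Finset.range (B + 1), ∀ᶠ p in (𝒰 : Filter X), ¬ f p = c := fun c _ => hc c
  have h3 := (Filter.eventually_all_finset _).2 h2
  obtain ⟨p, hp1, hp2⟩ := (h.and h3).exists
  exact hp2 (f p) (Finset.mem_range.2 (by omega)) rfl

lemma exists_eventually_of_exists_lt {X : Type*} (𝒰 : Ultrafilter X) {P : ℕ → X → Prop} {B : ℕ}
    (h : ∀ᶠ p in (𝒰 : Filter X), ∃ i < B, P i p) :
    ∃ i < B, ∀ᶠ p in (𝒰 : Filter X), P i p := by
  by_contra hc
  push Not at hc
  have h2 : ∀ c ∈ Finset.range B, ∀ᶠ p in (𝒰 : Filter X), ¬ P c p := fun c hcB =>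
    hc c (Finset.mem_range.1 hcB)
  have h3 := (Filter.eventually_all_finset _).2 h2
  obtain ⟨p, ⟨i, hi, hp1⟩, hp2⟩ := (h.and h3).exists
  exact hp2 i (Finset.mem_range.2 hi) hp1

/-- The points with top `δ` and `k δ = K` form a compact set. -/
theorem isCompact_level (hρ : ∀ e, Set.InjOn (ρ e) (Set.Iio e)) (δ : I) (K : ℕ) :
    IsCompact {p : Pt ρ μ | p.top = δ ∧ p.k δ = K} := by
  classical
  rw [isCompact_iff_ultrafilter_le_nhds]
  intro 𝒰 h𝒰
  have hL : ∀ᶠ p in (𝒰 : Filter (Pt ρ μ)), p.top = δ ∧ p.k δ = K := le_principal_iff.1 h𝒰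
  have htop : ∀ᶠ p in (𝒰 : Filter (Pt ρ μ)), p.top = δ := hL.mono fun _ h => h.1
  have hkδ : ∀ᶠ p in (𝒰 : Filter (Pt ρ μ)), p.k δ = K := hL.mono fun _ h => h.2
  -- the limit of `dn`
  set D : I → Set I := fun e => {e' | ∀ᶠ p in (𝒰 : Filter (Pt ρ μ)), e' ∈ p.dn e} with hD
  have hDnot : ∀ e e', e' ∉ D e → ∀ᶠ p in (𝒰 : Filter (Pt ρ μ)), e' ∉ p.dn e := fun e e' h =>
    Ultrafilter.eventually_not.2 h
  have hDδ : (D δ).Finite := by
    by_contra hinf
    obtain ⟨F, hF, hcard⟩ := Set.Infinite.exists_subset_card_eq hinf (K + 1)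
    have h1 : ∀ᶠ p in (𝒰 : Filter (Pt ρ μ)), ∀ e' ∈ F, e' ∈ p.dn δ :=
      (Filter.eventually_all_finset _).2 fun e' he' => hF he'
    obtain ⟨p, hp1, hp2⟩ := (h1.and hkδ).exists
    have h2 := card_dn_le hρ p δ
    have h3 := Finset.card_le_card (s := F) (t := p.dn δ) hp1
    omega
  have hDout : ∀ e, e ≠ δ → e ∉ D δ → ∀ᶠ p in (𝒰 : Filter (Pt ρ μ)),
      p.dn e = ∅ ∧ p.k e = 0 ∧ p.l e = 0 := by
    intro e h1 h2
    filter_upwards [hDnot _ _ h2, htop] with p hp hpt
    rw [← hpt] at hp h1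
    exact ⟨p.out_dn e h1 hp, p.out_k e h1 hp, p.out_l e hp⟩
  have hDfin : ∀ e, (D e).Finite := by
    intro e
    by_cases h1 : e = δ
    · rw [h1]; exact hDδ
    by_cases h2 : e ∈ D δ
    · refine hDδ.subset fun e' he' => ?_
      have h2' : ∀ᶠ p in (𝒰 : Filter (Pt ρ μ)), e ∈ p.dn δ := h2
      have he'' : ∀ᶠ p in (𝒰 : Filter (Pt ρ μ)), e' ∈ p.dn e := he'
      show ∀ᶠ p in (𝒰 : Filter (Pt ρ μ)), e' ∈ p.dn δ
      filter_upwards [h2', he''] with p hp hp'
      exact p.dn_trans _ _ hp hp'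
    · convert Set.finite_empty
      rw [Set.eq_empty_iff_forall_notMem]
      intro e' he'
      have he'' : ∀ᶠ p in (𝒰 : Filter (Pt ρ μ)), e' ∈ p.dn e := he'
      obtain ⟨p, hp, hp'⟩ := ((hDout e h1 h2).and he'').exists
      rw [hp.1] at hp'
      simp at hp'
  set D' : I → Finset I := fun e => (hDfin e).toFinset with hD'
  have hmem : ∀ e e', e' ∈ D' e ↔ ∀ᶠ p in (𝒰 : Filter (Pt ρ μ)), e' ∈ p.dn e := by
    intro e e'
    simp [hD', hD]
  have hnmem : ∀ e e', e' ∉ D' e → ∀ᶠ p in (𝒰 : Filter (Pt ρ μ)), e' ∉ p.dn e := by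
    intro e e' h
    refine hDnot _ _ fun h2 => h ((hmem _ _).2 h2)
  -- limit of `k` and `l`
  have hk : ∀ e, ∃ c, ∀ᶠ p in (𝒰 : Filter (Pt ρ μ)), p.k e = c := by
    intro e
    refine exists_eventually_eq_nat 𝒰 (B := K) ?_
    by_cases h1 : e = δ
    · rw [h1]
      exact hkδ.mono fun p hp => hp.le
    by_cases h2 : e ∈ D δ
    · have h2' : ∀ᶠ p in (𝒰 : Filter (Pt ρ μ)), e ∈ p.dn δ := h2
      filter_upwards [h2', hkδ, htop] with p hp hpk hpt
      have h3 := p.kl e (by rw [hpt]; exact hp)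
      have h4 := p.lk _ _ hp
      omega
    · filter_upwards [hDout e h1 h2] with p hp
      rw [hp.2.1]
      omega
  have hl : ∀ e, ∃ c, ∀ᶠ p in (𝒰 : Filter (Pt ρ μ)), p.l e = c := by
    intro e
    refine exists_eventually_eq_nat 𝒰 (B := K) ?_
    by_cases h2 : e ∈ D δ
    · have h2' : ∀ᶠ p in (𝒰 : Filter (Pt ρ μ)), e ∈ p.dn δ := h2
      filter_upwards [h2', hkδ] with p hp hpk
      have h4 := p.lk _ _ hp
      omega
    · filter_upwards [hDnot _ _ h2, htop] with p hp hpt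
      rw [p.out_l e (by rw [hpt]; exact hp)]
      omega
  choose k' hk' using hk
  choose l' hl' using hl
  set R' : I → ℕ → ℕ → Bool := fun e i m =>
    decide (∀ᶠ p in (𝒰 : Filter (Pt ρ μ)), p.R e i m = true) with hR'
  have hR : ∀ e i m, ∀ᶠ p in (𝒰 : Filter (Pt ρ μ)), p.R e i m = R' e i m := by
    intro e i m
    by_cases h1 : ∀ᶠ p in (𝒰 : Filter (Pt ρ μ)), p.R e i m = true
    · have : R' e i m = true := by simp only [hR', h1, decide_true]
      rw [this]; exact h1
    · have : R' e i m = false := by simp only [hR', h1, decide_false]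
      rw [this]
      have h2 := Ultrafilter.eventually_not.2 h1
      exact h2.mono fun p hp => by simpa using hp
  let q : Pt ρ μ :=
    { top := δ
      dn := D'
      k := k'
      l := l'
      R := R'
      dn_lt := by
        intro e e' h
        obtain ⟨p, hp⟩ := ((hmem _ _).1 h).exists
        exact p.dn_lt _ _ hp
      dn_trans := by
        intro e e' h e'' h'
        rw [hmem] at h h' ⊢
        filter_upwards [h, h'] with p hp hp'
        exact p.dn_trans _ _ hp hp'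
      real := by
        intro e e' h
        rw [hmem] at h
        have h1 : ∀ᶠ p in (𝒰 : Filter (Pt ρ μ)), ∃ i < k' e, p.R e i = ρ e e' := by
          filter_upwards [h, hk' e] with p hp hpk
          rw [← hpk]
          exact p.real _ _ hp
        obtain ⟨i, hi, h2⟩ := exists_eventually_of_exists_lt 𝒰 h1
        refine ⟨i, hi, ?_⟩
        funext m
        obtain ⟨p, hp, hp'⟩ := (h2.and (hR e i m)).exists
        rw [← hp', hp]
      kl := by
        intro e he
        rw [hmem] at he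
        obtain ⟨p, ⟨⟨hp, hpt⟩, hpk⟩, hpl⟩ := (((he.and htop).and (hk' e)).and (hl' e)).exists
        rw [← hpk, ← hpl]
        exact p.kl e (by rw [hpt]; exact hp)
      lk := by
        intro e e' he
        rw [hmem] at he
        obtain ⟨p, ⟨hp, hpk⟩, hpl⟩ := ((he.and (hk' e)).and (hl' e')).exists
        rw [← hpk, ← hpl]
        exact p.lk _ _ hp
      inc := by
        intro e' he' e he hlt hn
        rw [hmem] at he he'
        have hn' := hnmem _ _ hn
        obtain ⟨p, ⟨⟨⟨⟨⟨hp1, hp2⟩, hp3⟩, hp4⟩, hp5⟩, hp6⟩⟩ :=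
          (((((he.and he').and hn').and htop).and (hl' e')).and (hl' e)).exists
        rw [← hp5, ← hp6]
        exact p.inc e' (by rw [hp4]; exact hp2) e (by rw [hp4]; exact hp1) hlt hp3
      out_dn := by
        intro e h1 h2
        rw [Finset.eq_empty_iff_forall_notMem]
        intro e' he'
        rw [hmem] at he'
        obtain ⟨p, hp, hp'⟩ := ((hDout e h1 (fun h => h2 ((hmem _ _).2 h))).and he').exists
        rw [hp.1] at hp'
        simp at hp'
      out_k := by
        intro e h1 h2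
        obtain ⟨p, hp, hp'⟩ := ((hDout e h1 (fun h => h2 ((hmem _ _).2 h))).and (hk' e)).exists
        rw [← hp', hp.2.1]
      out_l := by
        intro e h2
        obtain ⟨p, ⟨hp, hp'⟩, hpt⟩ := (((hnmem _ _ h2)).and (hl' e) |>.and htop).exists
        rw [← hp']
        exact p.out_l e (by rw [hpt]; exact hp)
      out_R := by
        intro e i hi
        funext m
        obtain ⟨p, hp, hp'⟩ := ((hk' e).and (hR e i m)).exists
        rw [← hp', p.out_R e i (by rw [hp]; exact hi)] }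
  refine ⟨q, ⟨rfl, ?_⟩, ?_⟩
  · obtain ⟨p, hp, hp'⟩ := (hkδ.and (hk' δ)).exists
    show k' δ = K
    rw [← hp', hp]
  · rw [(nhds_basis q).ge_iff]
    intro n _
    have hF : ∀ e, {e' | e' < e ∧ ∃ i < k' e, R' e i = ρ e e'}.Finite := by
      intro e
      have hsub : {e' | e' < e ∧ ∃ i < k' e, R' e i = ρ e e'} ⊆
          ⋃ i ∈ Finset.range (k' e), {e' | e' < e ∧ R' e i = ρ e e'} := by
        rintro e' ⟨h1, i, hi, h2⟩
        simp only [Set.mem_iUnion, Finset.mem_range]
        exact ⟨i, hi, h1, h2⟩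
      refine Set.Finite.subset (Set.Finite.biUnion (Finset.finite_toSet _) fun i _ => ?_) hsub
      refine Set.Subsingleton.finite ?_
      rintro a ⟨ha1, ha2⟩ b ⟨hb1, hb2⟩
      exact hρ e ha1 hb1 (ha2.symm.trans hb2)
    have h1 : ∀ᶠ p in (𝒰 : Filter (Pt ρ μ)), ∀ e ∈ q.s,
        p.k e = k' e ∧ (∀ i < k' e, ∀ m < n, p.R e i m = R' e i m) ∧
        ∀ e' < e, (∃ i < k' e, R' e i = ρ e e') → (e' ∈ D' e ↔ e' ∈ p.dn e) := by
      refine (Filter.eventually_all_finset _).2 fun e _ => (hk' e).and (Filter.Eventually.and ?_ ?_)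
      · have := (Filter.eventually_all_finset (l := (𝒰 : Filter (Pt ρ μ)))
          (Finset.range (k' e) ×ˢ Finset.range n)
          (p := fun x p => p.R e x.1 x.2 = R' e x.1 x.2)).2 fun x _ => hR _ _ _
        filter_upwards [this] with p hp i hi m hm
        exact hp (i, m) (by simp [hi, hm])
      · have := (Filter.eventually_all_finite (l := (𝒰 : Filter (Pt ρ μ))) (hF e)
          (p := fun e' p => (e' ∈ D' e ↔ e' ∈ p.dn e))).2 fun e' _ => by
            by_cases h : e' ∈ D' e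
            · filter_upwards [(hmem _ _).1 h] with p hp
              exact ⟨fun _ => hp, fun _ => h⟩
            · filter_upwards [hnmem _ _ h] with p hp
              exact ⟨fun h' => absurd h' h, fun h' => absurd h' hp⟩
        filter_upwards [this] with p hp e' he' h
        exact hp e' ⟨he', h⟩
    have h2 : ∀ᶠ p in (𝒰 : Filter (Pt ρ μ)), ∀ e ∈ D' δ, p.l e = l' e :=
      (Filter.eventually_all_finset _).2 fun e _ => hl' e
    show ∀ᶠ p in (𝒰 : Filter (Pt ρ μ)), p ∈ bs n q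
    filter_upwards [htop, h1, h2] with p hp1 hp2 hp3
    exact ⟨Or.inl hp1, hp2, hp3⟩

/-- The points with top `δ` form a Lindelof set. -/
theorem isLindelof_level (hρ : ∀ e, Set.InjOn (ρ e) (Set.Iio e)) (δ : I) :
    IsLindelof {p : Pt ρ μ | p.top = δ} := by
  have h : {p : Pt ρ μ | p.top = δ} = ⋃ K : ℕ, {p : Pt ρ μ | p.top = δ ∧ p.k δ = K} := by
    ext p
    simp
  rw [h]
  exact isLindelof_iUnion fun K => (isCompact_level hρ δ K).isLindelof

end Pool.Agent.W898423
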