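import Mathlib

set_option autoImplicit false

/-!
# A first countable regular cellular-Lindelof space: the points and the topology

Generic in a linear order `I`, a family of maps `ρ ε : I → (ℕ → Bool)` (injective below `ε`) and
a function `μ : I → I → ℕ`.
-/

namespace Pool.Agent.W898423

open Set Topology

variable {I : Type} [LinearOrder I]

/-- The points of the space. -/
@[ext]
structure Pt (ρ : I → I → ℕ → Bool) (μ : I → I → ℕ) where
  top : I
  dn : I → Finset I
  k : I → ℕ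
  l : I → ℕ
  R : I → ℕ → ℕ → Bool
  dn_lt : ∀ e e', e' ∈ dn e → e' < e
  dn_trans : ∀ e e', e' ∈ dn e → dn e' ⊆ dn e
  real : ∀ e e', e' ∈ dn e → ∃ i < k e, R e i = ρ e e'
  kl : ∀ e ∈ dn top, k e < l e
  lk : ∀ e e', e' ∈ dn e → l e' ≤ k e
  inc : ∀ e' ∈ dn top, ∀ e ∈ dn top, e' < e → e' ∉ dn e → l e' < μ e' e ∧ l e < μ e' e
  out_dn : ∀ e, e ≠ top → e ∉ dn top → dn e = ∅
  out_k : ∀ e, e ≠ top → e ∉ dn top → k e = 0
  out_l : ∀ e, e ∉ dn top → l e = 0
  out_R : ∀ e i, k e ≤ i → R e i = fun _ => false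

variable {ρ : I → I → ℕ → Bool} {μ : I → I → ℕ}

namespace Pt

/-- The support of a point. -/
def s (p : Pt ρ μ) : Finset I := insert p.top (p.dn p.top)

lemma mem_s {p : Pt ρ μ} {e : I} : e ∈ p.s ↔ e = p.top ∨ e ∈ p.dn p.top := by
  simp [s]

lemma top_mem_s (p : Pt ρ μ) : p.top ∈ p.s := by simp [s]

lemma le_top {p : Pt ρ μ} {e : I} (h : e ∈ p.s) : e ≤ p.top := by
  rcases mem_s.1 h with h | h
  · exact h.le
  · exact (p.dn_lt _ _ h).le

lemma dn_sub_dn_top {p : Pt ρ μ} {e : I} (h : e ∈ p.s) : p.dn e ⊆ p.dn p.top := by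
  rcases mem_s.1 h with h | h
  · rw [h]
  · exact p.dn_trans _ _ h

lemma dn_sub_s {p : Pt ρ μ} {e : I} (h : e ∈ p.s) : p.dn e ⊆ p.s := fun _ hx =>
  mem_s.2 (Or.inr (dn_sub_dn_top h hx))

lemma dn_top_sub_s {p : Pt ρ μ} : p.dn p.top ⊆ p.s := fun _ hx => mem_s.2 (Or.inr hx)

end Pt

/-- The basic neighbourhoods. -/
def bs (n : ℕ) (p : Pt ρ μ) : Set (Pt ρ μ) :=
  {w | (w.top = p.top ∨ (p.top ∈ w.dn w.top ∧ n ≤ w.l p.top)) ∧
    (∀ e ∈ p.s, w.k e = p.k e ∧ (∀ i < p.k e, ∀ m < n, w.R e i m = p.R e i m) ∧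
      ∀ e' < e, (∃ i < p.k e, p.R e i = ρ e e') → (e' ∈ p.dn e ↔ e' ∈ w.dn e)) ∧
    ∀ e ∈ p.dn p.top, w.l e = p.l e}

lemma self_mem_bs (n : ℕ) (p : Pt ρ μ) : p ∈ bs n p :=
  ⟨Or.inl rfl, fun _ _ => ⟨rfl, fun _ _ _ _ => rfl, fun _ _ _ => Iff.rfl⟩, fun _ _ => rfl⟩

lemma bs_anti {n m : ℕ} (h : n ≤ m) (p : Pt ρ μ) : bs m p ⊆ bs n p := by
  rintro w ⟨h1, h2, h3⟩
  refine ⟨?_, fun e he => ⟨(h2 e he).1, fun i hi j hj => (h2 e he).2.1 i hi j (hj.trans_le h),
    (h2 e he).2.2⟩, h3⟩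
  rcases h1 with h1 | h1
  · exact Or.inl h1
  · exact Or.inr ⟨h1.1, h.trans h1.2⟩

lemma dn_sub_of_mem_bs {n : ℕ} {p w : Pt ρ μ} (h : w ∈ bs n p) {e : I} (he : e ∈ p.s) :
    p.dn e ⊆ w.dn e := by
  intro e' he'
  exact ((h.2.1 e he).2.2 e' (p.dn_lt _ _ he') (p.real _ _ he')).1 he'

lemma top_mem_of_mem_bs {n : ℕ} {p w : Pt ρ μ} (h : w ∈ bs n p) : p.top ∈ w.s := by
  rcases h.1 with h1 | h1
  · rw [← h1]; exact w.top_mem_s
  · exact Pt.dn_top_sub_s h1.1

lemma s_sub_of_mem_bs {n : ℕ} {p w : Pt ρ μ} (h : w ∈ bs n p) : p.s ⊆ w.s := by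
  intro e he
  rcases Pt.mem_s.1 he with h1 | h1
  · rw [h1]; exact top_mem_of_mem_bs h
  · exact Pt.dn_sub_s (top_mem_of_mem_bs h) (dn_sub_of_mem_bs h p.top_mem_s h1)

/-- `j` separates the reals of `p` from those of `w` and both from the codes of elements of the
supports. -/
def Sep (j : ℕ) (p w : Pt ρ μ) : Prop :=
  (∀ e ∈ p.s, ∀ i < p.k e, ∀ i' < w.k e, (∀ m < j, w.R e i' m = p.R e i m) → w.R e i' = p.R e i) ∧
  (∀ e ∈ w.s, ∀ e' ∈ p.s, ∀ i' < w.k e, (∀ m < j, w.R e i' m = ρ e e' m) → w.R e i' = ρ e e')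

lemma Sep.mono {j j' : ℕ} (hj : j ≤ j') {p w : Pt ρ μ} (h : Sep j p w) : Sep j' p w :=
  ⟨fun e he i hi i' hi' hm => h.1 e he i hi i' hi' fun m hm' => hm m (hm'.trans_le hj),
   fun e he e' he' i' hi' hm => h.2 e he e' he' i' hi' fun m hm' => hm m (hm'.trans_le hj)⟩

/-- Two reals that agree on arbitrarily long initial segments are equal; uniform version over a
finite set of pairs. -/
lemma exists_sep_fin {α : Type*} (S : Finset α) (f g : α → ℕ → Bool) :
    ∃ j, ∀ a ∈ S, (∀ m < j, f a m = g a m) → f a = g a := by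
  classical
  induction S using Finset.induction_on with
  | empty => exact ⟨0, by simp⟩
  | insert a S _ ih =>
    obtain ⟨j, hj⟩ := ih
    by_cases hfg : f a = g a
    · refine ⟨j, fun b hb h => ?_⟩
      rcases Finset.mem_insert.1 hb with rfl | hb
      · exact hfg
      · exact hj b hb h
    · obtain ⟨m, hm⟩ := Function.ne_iff.1 hfg
      refine ⟨max j (m + 1), fun b hb h => ?_⟩
      rcases Finset.mem_insert.1 hb with rfl | hb
      · exact absurd (h m (by omega)) hm
      · exact hj b hb fun m' hm' => h m' (by omega)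

lemma exists_sep (p w : Pt ρ μ) : ∃ j, Sep j p w := by
  classical
  obtain ⟨j1, h1⟩ := exists_sep_fin
    (p.s ×ˢ (Finset.range (p.s.sup p.k) ×ˢ Finset.range (p.s.sup w.k)))
    (fun a => w.R a.1 a.2.2) (fun a => p.R a.1 a.2.1)
  obtain ⟨j2, h2⟩ := exists_sep_fin
    (w.s ×ˢ (p.s ×ˢ Finset.range (w.s.sup w.k)))
    (fun a => w.R a.1 a.2.2) (fun a => ρ a.1 a.2.1)
  refine ⟨max j1 j2, ?_, ?_⟩
  · intro e he i hi i' hi' hm
    refine h1 (e, i, i') ?_ fun m hm' => hm m (by omega)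
    have a1 : p.k e ≤ p.s.sup p.k := Finset.le_sup he
    have a2 : w.k e ≤ p.s.sup w.k := Finset.le_sup he
    simp only [Finset.mem_product, Finset.mem_range]
    exact ⟨he, by omega, by omega⟩
  · intro e he e' he' i' hi' hm
    refine h2 (e, e', i') ?_ fun m hm' => hm m (by omega)
    have a2 : w.k e ≤ w.s.sup w.k := Finset.le_sup he
    simp only [Finset.mem_product, Finset.mem_range]
    exact ⟨he, he', by omega⟩

/-- The transfer of membership: if `v ∈ b_j(w)` and `j` separates `R_w` from a real `x = ρ e e'`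
then `e' ∈ dn_v e` implies `e' ∈ dn_w e`. -/
lemma dn_back {j : ℕ} {w v : Pt ρ μ} (hv : v ∈ bs j w) {e e' : I} (he : e ∈ w.s)
    (hsep : ∀ i' < w.k e, (∀ m < j, w.R e i' m = ρ e e' m) → w.R e i' = ρ e e')
    (he' : e' ∈ v.dn e) : e' ∈ w.dn e := by
  obtain ⟨i, hi, hR⟩ := v.real _ _ he'
  have hk := (hv.2.1 e he).1
  rw [hk] at hi
  have h1 : w.R e i = ρ e e' := hsep i hi fun m hm => by
    rw [← (hv.2.1 e he).2.1 i hi m hm, hR]
  exact ((hv.2.1 e he).2.2 e' (v.dn_lt _ _ he') ⟨i, hi, h1⟩).2 he'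

/-- Basic sets are open. -/
lemma exists_bs_sub {n : ℕ} {p w : Pt ρ μ} (h : w ∈ bs n p) : ∃ j, bs j w ⊆ bs n p := by
  obtain ⟨j0, hj0⟩ := exists_sep p w
  refine ⟨max j0 n, ?_⟩
  intro v hv
  have hsep := hj0.mono (le_max_left j0 n)
  set j := max j0 n with hj
  have hnj : n ≤ j := le_max_right _ _
  have hps : p.s ⊆ w.s := s_sub_of_mem_bs h
  have htopw : p.top ∈ w.s := top_mem_of_mem_bs h
  refine ⟨?_, ?_, ?_⟩
  · rcases h.1 with h1 | h1
    · rcases hv.1 with h2 | h2
      · exact Or.inl (h2.trans h1)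
      · rw [h1] at h2
        exact Or.inr ⟨h2.1, hnj.trans h2.2⟩
    · right
      have h3 : p.top ∈ v.dn w.top := dn_sub_of_mem_bs hv w.top_mem_s h1.1
      refine ⟨Pt.dn_sub_dn_top (top_mem_of_mem_bs hv) h3, ?_⟩
      rw [hv.2.2 _ h1.1]
      exact h1.2
  · intro e he
    have hew := hps he
    refine ⟨((hv.2.1 e hew).1).trans (h.2.1 e he).1, ?_, ?_⟩
    · intro i hi m hm
      rw [(hv.2.1 e hew).2.1 i (by rw [(h.2.1 e he).1]; exact hi) m (hm.trans_le hnj),
        (h.2.1 e he).2.1 i hi m hm]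
    · rintro e' he' ⟨i, hi, hR⟩
      rw [(h.2.1 e he).2.2 e' he' ⟨i, hi, hR⟩]
      refine ⟨fun h4 => dn_sub_of_mem_bs hv hew h4, fun h4 => ?_⟩
      refine dn_back hv hew (fun i' hi' hm => ?_) h4
      rw [← hR]
      exact hsep.1 e he i hi i' hi' (by rw [hR]; exact hm)
  · intro e he
    have h5 : e ∈ w.dn w.top :=
      Pt.dn_sub_dn_top htopw (dn_sub_of_mem_bs h p.top_mem_s he)
    rw [hv.2.2 e h5, h.2.2 e he]

/-- Basic sets are closed. -/
lemma exists_bs_disj {n : ℕ} {p w : Pt ρ μ} (h : w ∉ bs n p) :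
    ∃ j, bs j w ∩ bs n p = ∅ := by
  obtain ⟨j0, hj0⟩ := exists_sep p w
  refine ⟨max (max j0 n) (max (max (μ p.top w.top) (μ w.top p.top)) (p.k p.top + 1)), ?_⟩
  set j := max (max j0 n) (max (max (μ p.top w.top) (μ w.top p.top)) (p.k p.top + 1)) with hj
  have hj0j : j0 ≤ j := by omega
  have hnj : n ≤ j := by omega
  have hμ1 : μ p.top w.top ≤ j := by omega
  have hμ2 : μ w.top p.top ≤ j := by omega
  have hkj : p.k p.top < j := by omega
  have hsep := hj0.mono hj0j
  clear_value j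
  rw [Set.eq_empty_iff_forall_notMem]
  rintro v ⟨hvw, hvp⟩
  by_cases htop : p.top ∈ w.s
  · -- then `w ∈ b_n(p)`
    apply h
    -- the downward set
    have key : ∀ e ∈ p.s, e ∈ w.s → p.dn e ⊆ w.dn e := by
      intro e he hew e' he'
      obtain ⟨i, hi, hR⟩ := p.real _ _ he'
      refine dn_back hvw hew (fun i' hi' hm => ?_) (dn_sub_of_mem_bs hvp he he')
      rw [← hR]
      exact hsep.1 e he i hi i' hi' (by rw [hR]; exact hm)
    have hps : p.s ⊆ w.s := by
      intro e he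
      rcases Pt.mem_s.1 he with h1 | h1
      · rw [h1]; exact htop
      · exact Pt.dn_sub_s htop (key _ p.top_mem_s htop h1)
    refine ⟨?_, ?_, ?_⟩
    · rcases Pt.mem_s.1 htop with h1 | h1
      · exact Or.inl h1.symm
      · right
        refine ⟨h1, ?_⟩
        rw [← hvw.2.2 _ h1]
        rcases hvp.1 with h2 | h2
        · exfalso
          have h3 : p.top < w.top := w.dn_lt _ _ h1
          have h4 : w.top ≤ v.top := Pt.le_top (top_mem_of_mem_bs hvw)
          rw [h2] at h4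
          exact absurd h4 (not_le.2 h3)
        · exact h2.2
    · intro e he
      have hew := hps he
      have hkk : w.k e = p.k e := by rw [← (hvw.2.1 e hew).1, (hvp.2.1 e he).1]
      refine ⟨hkk, ?_, ?_⟩
      · intro i hi m hm
        rw [← (hvw.2.1 e hew).2.1 i (by rw [hkk]; exact hi) m (hm.trans_le hnj),
          (hvp.2.1 e he).2.1 i hi m hm]
      · rintro e' he' ⟨i, hi, hR⟩
        refine ⟨fun h4 => key e he hew h4, fun h4 => ?_⟩
        exact ((hvp.2.1 e he).2.2 e' he' ⟨i, hi, hR⟩).2 (dn_sub_of_mem_bs hvw hew h4)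
    · intro e he
      have h5 : e ∈ w.dn w.top :=
        Pt.dn_sub_dn_top htop (key _ p.top_mem_s htop he)
      rw [← hvw.2.2 e h5, hvp.2.2 e he]
  · have hpv : p.top ∈ v.s := top_mem_of_mem_bs hvp
    have hwv : w.top ∈ v.s := top_mem_of_mem_bs hvw
    have hne : p.top ≠ w.top := fun h1 => htop (by rw [h1]; exact w.top_mem_s)
    rcases lt_or_gt_of_ne hne with hlt | hlt
    · -- p.top < w.top
      by_cases hdn : p.top ∈ v.dn w.top
      · apply htop
        refine Pt.dn_top_sub_s (dn_back hvw w.top_mem_s (fun i' hi' hm => ?_) hdn)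
        exact hsep.2 _ w.top_mem_s _ p.top_mem_s i' hi' hm
      · have h1 : v.top ≠ w.top := by
          intro h1
          rcases Pt.mem_s.1 hpv with h2 | h2
          · exact hne (h2.trans h1)
          · rw [h1] at h2; exact hdn h2
        have hw2 : w.top ∈ v.dn v.top := by
          rcases Pt.mem_s.1 hwv with h2 | h2
          · exact absurd h2.symm h1
          · exact h2
        have hp2 : p.top ∈ v.dn v.top := by
          rcases Pt.mem_s.1 hpv with h2 | h2
          · have h3 := v.dn_lt _ _ hw2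
            rw [← h2] at h3
            exact absurd h3 (not_lt.2 hlt.le)
          · exact h2
        have h3 := (v.inc _ hp2 _ hw2 hlt hdn).2
        rcases hvw.1 with h4 | h4
        · exact h1 h4
        · omega
    · -- w.top < p.top
      by_cases hdn : w.top ∈ v.dn p.top
      · have h3 := v.lk _ _ hdn
        rw [(hvp.2.1 _ p.top_mem_s).1] at h3
        rcases hvw.1 with h4 | h4
        · have h5 : p.top ≤ v.top := Pt.le_top hpv
          rw [h4] at h5
          exact absurd h5 (not_le.2 hlt)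
        · omega
      · have h1 : v.top ≠ p.top := by
          intro h1
          rcases Pt.mem_s.1 hwv with h2 | h2
          · exact hne (h2.trans h1).symm
          · rw [h1] at h2; exact hdn h2
        have hp2 : p.top ∈ v.dn v.top := by
          rcases Pt.mem_s.1 hpv with h2 | h2
          · exact absurd h2.symm h1
          · exact h2
        have hw2 : w.top ∈ v.dn v.top := by
          rcases Pt.mem_s.1 hwv with h2 | h2
          · have h3 := v.dn_lt _ _ hp2
            rw [← h2] at h3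
            exact absurd h3 (not_lt.2 hlt.le)
          · exact h2
        have h3 := (v.inc _ hw2 _ hp2 hlt hdn).1
        rcases hvw.1 with h4 | h4
        · rw [← h4] at hlt
          exact absurd (Pt.le_top hpv) (not_le.2 hlt)
        · omega

/-- The basic sets determine the point. -/
lemma eq_of_forall_mem_bs {p w : Pt ρ μ} (h : ∀ n, w ∈ bs n p) : w = p := by
  have htop : w.top = p.top := by
    rcases (h (w.l p.top + 1)).1 with h1 | h1
    · exact h1
    · omega
  have hk : ∀ e ∈ p.s, w.k e = p.k e := fun e he => ((h 0).2.1 e he).1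
  have hR : ∀ e ∈ p.s, ∀ i < p.k e, w.R e i = p.R e i := fun e he i hi => by
    funext m
    exact ((h (m + 1)).2.1 e he).2.1 i hi m (Nat.lt_succ_self m)
  have hdn : ∀ e ∈ p.s, w.dn e = p.dn e := by
    intro e he
    apply Finset.Subset.antisymm
    · intro e' he'
      obtain ⟨i, hi, hRi⟩ := w.real _ _ he'
      rw [hk e he] at hi
      rw [hR e he i hi] at hRi
      exact (((h 0).2.1 e he).2.2 e' (w.dn_lt _ _ he') ⟨i, hi, hRi⟩).2 he'
    · exact dn_sub_of_mem_bs (h 0) he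
  have hs : w.s = p.s := by
    unfold Pt.s
    rw [htop, hdn _ p.top_mem_s]
  have hdn' : w.dn = p.dn := by
    funext e
    by_cases he : e ∈ p.s
    · exact hdn e he
    · have he2 := he
      rw [← hs] at he2
      rw [Pt.mem_s, not_or] at he he2
      rw [p.out_dn e he.1 he.2, w.out_dn e he2.1 he2.2]
  have hk' : w.k = p.k := by
    funext e
    by_cases he : e ∈ p.s
    · exact hk e he
    · have he2 := he
      rw [← hs] at he2
      rw [Pt.mem_s, not_or] at he he2
      rw [p.out_k e he.1 he.2, w.out_k e he2.1 he2.2]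
  have hl' : w.l = p.l := by
    funext e
    by_cases he : e ∈ p.dn p.top
    · exact (h 0).2.2 e he
    · rw [p.out_l e he, w.out_l e (by rw [htop, hdn']; exact he)]
  have hR' : w.R = p.R := by
    funext e i
    by_cases hi : i < p.k e
    · by_cases he : e ∈ p.s
      · exact hR e he i hi
      · rw [Pt.mem_s, not_or] at he
        rw [p.out_k e he.1 he.2] at hi
        exact absurd hi (Nat.not_lt_zero _)
    · rw [p.out_R e i (not_lt.1 hi), w.out_R e i (by rw [hk']; exact not_lt.1 hi)]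
  exact Pt.ext htop hdn' hk' hl' hR'

instance : TopologicalSpace (Pt ρ μ) where
  IsOpen U := ∀ p ∈ U, ∃ n, bs n p ⊆ U
  isOpen_univ := fun _ _ => ⟨0, subset_univ _⟩
  isOpen_inter := by
    intro U V hU hV p hp
    obtain ⟨n, hn⟩ := hU p hp.1
    obtain ⟨m, hm⟩ := hV p hp.2
    exact ⟨max n m, subset_inter ((bs_anti (le_max_left _ _) p).trans hn)
      ((bs_anti (le_max_right _ _) p).trans hm)⟩
  isOpen_sUnion := by
    intro S hS p hp
    obtain ⟨U, hU, hpU⟩ := hp
    obtain ⟨n, hn⟩ := hS U hU p hpU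
    exact ⟨n, hn.trans (subset_sUnion_of_mem hU)⟩

lemma isOpen_def {U : Set (Pt ρ μ)} : IsOpen U ↔ ∀ p ∈ U, ∃ n, bs n p ⊆ U := Iff.rfl

lemma isOpen_bs (n : ℕ) (p : Pt ρ μ) : IsOpen (bs n p) := fun _ hw => exists_bs_sub hw

lemma isClosed_bs (n : ℕ) (p : Pt ρ μ) : IsClosed (bs n p) := by
  rw [← isOpen_compl_iff, isOpen_def]
  intro w hw
  obtain ⟨j, hj⟩ := exists_bs_disj hw
  refine ⟨j, fun v hv hv2 => ?_⟩
  have : v ∈ bs j w ∩ bs n p := ⟨hv, hv2⟩
  rw [hj] at this
  exact this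

lemma nhds_basis (p : Pt ρ μ) : (𝓝 p).HasBasis (fun _ : ℕ => True) (fun n => bs n p) := by
  refine ⟨fun U => ?_⟩
  constructor
  · intro hU
    obtain ⟨V, hVU, hV, hpV⟩ := mem_nhds_iff.1 hU
    obtain ⟨n, hn⟩ := hV p hpV
    exact ⟨n, trivial, hn.trans hVU⟩
  · rintro ⟨n, -, hn⟩
    exact Filter.mem_of_superset ((isOpen_bs n p).mem_nhds (self_mem_bs n p)) hn

instance : FirstCountableTopology (Pt ρ μ) :=
  ⟨fun p => (nhds_basis p).isCountablyGenerated⟩

instance : RegularSpace (Pt ρ μ) :=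
  RegularSpace.of_hasBasis nhds_basis fun p n _ => isClosed_bs n p

instance : T0Space (Pt ρ μ) := by
  refine ⟨fun p w h => ?_⟩
  refine (eq_of_forall_mem_bs fun n => ?_).symm
  have h1 : bs n p ∈ 𝓝 w := by
    rw [← h.nhds_eq]
    exact (nhds_basis p).mem_of_mem trivial
  exact mem_of_mem_nhds h1

instance : T3Space (Pt ρ μ) where

end Pool.Agent.W898423
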